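import Pool.Agent.W79.PL.Defs

/-!
# Orderings with few changes by reweighting (S_PATH)
-/

set_option autoImplicit false

namespace Pool.Agent.W672.PL

open scoped Classical
open Pool.Agent.W79.PL

theorem choose_le (n κ : ℕ) : (n + κ).choose κ ≤ (n + 1) ^ κ := by
  induction κ with
  | zero => simp
  | succ κ ih =>
    have h := Nat.add_one_mul_choose_eq (n + κ) κ
    have h2 : (n + κ + 1) ≤ (n + 1) * (κ + 1) := by nlinarith
    have h3 : (n + (κ + 1)).choose (κ + 1) * (κ + 1) ≤ (n + 1) ^ (κ + 1) * (κ + 1) := by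
      calc (n + (κ + 1)).choose (κ + 1) * (κ + 1) = (n + κ + 1) * (n + κ).choose κ := by
            rw [h]; rfl
        _ ≤ ((n + 1) * (κ + 1)) * (n + 1) ^ κ := Nat.mul_le_mul h2 ih
        _ = (n + 1) ^ (κ + 1) * (κ + 1) := by ring
    exact Nat.le_of_mul_le_mul_right h3 (Nat.succ_pos κ)

theorem asc_le (κ n : ℕ) : (κ + 1).ascFactorial n ≤ n.factorial * (n + 1) ^ κ := by
  rw [Nat.ascFactorial_eq_factorial_mul_choose]
  apply Nat.mul_le_mul_left
  have : (κ + n).choose n = (n + κ).choose κ := by
    rw [add_comm κ n, Nat.choose_symm_add]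
  rw [this]
  exact choose_le n κ

theorem step (hins : S_INS) {V : Type} [Fintype V] (G : SimpleGraph V) (κ : ℕ)
    (H : ∀ (U : Finset V) (w : V → ℕ), 2 ≤ U.card → ∃ a ∈ U, ∃ b ∈ U, a ≠ b ∧
      U.card * ∑ x ∈ sep G a b, w x ≤ κ * ∑ x, w x) :
    ∀ (u : ℕ) (U : Finset V) (w : V → ℕ), U.card = u → (∀ x, 1 ≤ w x) →
      ∃ (o : List V) (N : V → ℕ), o.Nodup ∧ (∀ v, v ∈ o ↔ v ∈ U) ∧
        ∀ x, cg G x o ≤ 2 * N x ∧
          w x * 2 ^ (N x) * u.factorial ≤ (∑ y, w y) * (κ + 1).ascFactorial u := by
  intro u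
  induction u with
  | zero =>
    intro U w hU hw
    refine ⟨[], fun _ => 0, List.nodup_nil, ?_, ?_⟩
    · intro v
      rw [Finset.card_eq_zero.1 hU]; simp
    · intro x
      refine ⟨by simp [cg], ?_⟩
      have := Finset.single_le_sum (f := w) (fun i _ => Nat.zero_le _) (Finset.mem_univ x)
      simpa using this
  | succ u ih =>
    intro U w hU hw
    rcases Nat.eq_zero_or_pos u with hu | hu
    · subst hu
      obtain ⟨a, ha⟩ := Finset.card_eq_one.1 hU
      refine ⟨[a], fun _ => 0, List.nodup_singleton a, ?_, ?_⟩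
      · intro v; rw [ha]; simp
      · intro x
        refine ⟨by simp [cg], ?_⟩
        have := Finset.single_le_sum (f := w) (fun i _ => Nat.zero_le _) (Finset.mem_univ x)
        have h1 : (κ + 1).ascFactorial (0 + 1) = κ + 1 := by simp [Nat.ascFactorial]
        rw [h1]
        simp only [pow_zero, mul_one, zero_add, Nat.factorial_one]
        nlinarith
    · obtain ⟨a, haU, b, hbU, hab, hle⟩ := H U w (by omega)
      set w' : V → ℕ := fun x => if x ∈ sep G a b then 2 * w x else w x with hw'
      have hw'1 : ∀ x, 1 ≤ w' x := by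
        intro x
        have := hw x
        simp only [hw']
        split_ifs <;> omega
      have hsum : ∑ x, w' x = ∑ x, w x + ∑ x ∈ sep G a b, w x := by
        have h1 : ∀ x, w' x = w x + (if x ∈ sep G a b then w x else 0) := by
          intro x
          simp only [hw']
          split_ifs <;> omega
        rw [Finset.sum_congr rfl (fun x _ => h1 x), Finset.sum_add_distrib]
        congr 1
        rw [← Finset.sum_filter]
        congr 1
        ext x; simp
      obtain ⟨o', N', hnd, hmem, hN⟩ := ih (U.erase a) w'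
        (by rw [Finset.card_erase_of_mem haU, hU]; rfl) hw'1
      have hbo : b ∈ o' := (hmem b).2 (Finset.mem_erase.2 ⟨hab.symm, hbU⟩)
      obtain ⟨l1, l2, hl⟩ := List.append_of_mem hbo
      have hao : a ∉ o' := fun h => (Finset.mem_erase.1 ((hmem a).1 h)).1 rfl
      refine ⟨l1 ++ b :: a :: l2, fun x => N' x + (if x ∈ sep G a b then 1 else 0), ?_, ?_, ?_⟩
      · have hperm : (l1 ++ b :: a :: l2).Perm (a :: o') := by
          rw [hl]
          have h1 : (l1 ++ b :: a :: l2) = (l1 ++ [b]) ++ a :: l2 := by simp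
          have h2 : (l1 ++ b :: l2) = (l1 ++ [b]) ++ l2 := by simp
          rw [h1, h2]
          exact List.perm_middle
        exact hperm.nodup_iff.2 (List.nodup_cons.2 ⟨hao, hnd⟩)
      · intro v
        have h1 : v ∈ l1 ++ b :: a :: l2 ↔ v = a ∨ v ∈ o' := by
          rw [hl]; simp only [List.mem_append, List.mem_cons]; tauto
        rw [h1, hmem v, Finset.mem_erase]
        constructor
        · rintro (h | h)
          · rw [h]; exact haU
          · exact h.2
        · intro h
          by_cases hva : v = a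
          · exact Or.inl hva
          · exact Or.inr ⟨hva, h⟩
      · intro x
        obtain ⟨h1, h2⟩ := hN x
        constructor
        · have h3 := hins V G x a b l1 l2
          rw [← hl] at h3
          simp only
          omega
        · have h3 : w x * 2 ^ (N' x + (if x ∈ sep G a b then 1 else 0)) = w' x * 2 ^ (N' x) := by
            simp only [hw']
            split_ifs with h
            · rw [pow_succ]; ring
            · simp
          simp only
          rw [h3, Nat.factorial_succ, Nat.ascFactorial_succ]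
          have h4 : (u + 1) * ∑ x, w' x ≤ (κ + 1 + u) * ∑ x, w x := by
            rw [hsum]
            rw [hU] at hle
            nlinarith
          calc w' x * 2 ^ N' x * ((u + 1) * u.factorial)
              = (u + 1) * (w' x * 2 ^ N' x * u.factorial) := by ring
            _ ≤ (u + 1) * ((∑ y, w' y) * (κ + 1).ascFactorial u) := Nat.mul_le_mul_left _ h2
            _ = ((u + 1) * ∑ y, w' y) * (κ + 1).ascFactorial u := by ring
            _ ≤ ((κ + 1 + u) * ∑ x, w x) * (κ + 1).ascFactorial u := Nat.mul_le_mul_right _ h4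
            _ = (∑ y, w y) * ((κ + 1 + u) * (κ + 1).ascFactorial u) := by ring

theorem main : S_INS → S_PATH := by
  intro hins V _ G κ H
  obtain ⟨o, N, hnd, hmem, hN⟩ := step hins G κ H (Fintype.card V) Finset.univ (fun _ => 1)
    Finset.card_univ (fun _ => le_rfl)
  refine ⟨o, hnd, fun v => (hmem v).2 (Finset.mem_univ v), ?_⟩
  intro x
  obtain ⟨h1, h2⟩ := hN x
  set n := Fintype.card V with hn
  have hn0 : 0 < n := Fintype.card_pos_iff.2 ⟨x⟩
  simp only [one_mul, Finset.sum_const, Finset.card_univ, smul_eq_mul, mul_one] at h2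
  have h3 : 2 ^ (N x) * n.factorial ≤ ((n + 1) ^ (κ + 1)) * n.factorial := by
    calc 2 ^ (N x) * n.factorial ≤ n * (κ + 1).ascFactorial n := h2
      _ ≤ (n + 1) * (n.factorial * (n + 1) ^ κ) :=
          Nat.mul_le_mul (Nat.le_succ n) (asc_le κ n)
      _ = _ := by ring
  have h4 : 2 ^ (N x) ≤ (n + 1) ^ (κ + 1) :=
    Nat.le_of_mul_le_mul_right h3 (Nat.factorial_pos n)
  have h5 : n + 1 ≤ 2 ^ (Nat.log 2 n + 1) := Nat.lt_pow_succ_log_self (by norm_num) n
  have h6 : 2 ^ (N x) ≤ 2 ^ ((κ + 1) * (Nat.log 2 n + 1)) := by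
    calc 2 ^ (N x) ≤ (n + 1) ^ (κ + 1) := h4
      _ ≤ (2 ^ (Nat.log 2 n + 1)) ^ (κ + 1) := Nat.pow_le_pow_left h5 _
      _ = _ := by rw [← pow_mul, mul_comm]
  have h7 : N x ≤ (κ + 1) * (Nat.log 2 n + 1) := (Nat.pow_le_pow_iff_right (by norm_num)).1 h6
  calc cg G x o ≤ 2 * N x := h1
    _ ≤ _ := Nat.mul_le_mul_left 2 h7

end Pool.Agent.W672.PL
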