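import Pool.Agent.W79.PL.Defs

/-!
# The numerical consequence (S_PIN)
-/

set_option autoImplicit false

namespace Pool.Agent.W672.PL.Pin

open Pool.Agent.W79.PL

theorem main : S_PIN := by
  intro c
  refine ⟨1 + 8 * 2 ^ c * c, ?_⟩
  intro k M hk h
  set t := Nat.log 2 k + 1 with ht
  have ht1 : 1 ≤ t := by omega
  have hkt : k < 2 ^ t := Nat.lt_pow_succ_log_self (by norm_num) k
  rcases Nat.lt_or_ge M (t * k) with hM | hM
  · calc M ≤ t * k := hM.le
      _ = 1 * (k * t) := by ring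
      _ ≤ (1 + 8 * 2 ^ c * c) * (k * t) := Nat.mul_le_mul_right _ (by omega)
      _ = _ := by ring
  · have h1 := h (t * k) hM
    have h2 : (M - t * k) ^ (t * k) ≤ M.descFactorial (t * k) :=
      (Nat.pow_le_pow_left (by omega) _).trans (Nat.pow_sub_le_descFactorial M (t * k))
    have h3 : (k + t * k).factorial * c ^ (k + t * k) ≤ (c * (t + 1) * k) ^ (k + t * k) := by
      calc (k + t * k).factorial * c ^ (k + t * k)
          ≤ (k + t * k) ^ (k + t * k) * c ^ (k + t * k) :=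
            Nat.mul_le_mul_right _ (Nat.factorial_le_pow _)
        _ = ((k + t * k) * c) ^ (k + t * k) := by rw [mul_pow]
        _ = _ := by congr 1; ring
    have h4 : ((M - t * k) ^ t) ^ k ≤ ((c * (t + 1) * k) ^ (t + 1)) ^ k := by
      rw [← pow_mul, ← pow_mul]
      have e : (t + 1) * k = k + t * k := by ring
      rw [e]
      exact h2.trans (h1.trans h3)
    have h5 : (M - t * k) ^ t ≤ (c * (t + 1) * k) ^ (t + 1) :=
      (Nat.pow_le_pow_iff_left (by omega)).1 h4
    have hc : c ≤ (2 ^ c) ^ t := by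
      calc c ≤ 2 ^ c := Nat.lt_two_pow_self.le
        _ = (2 ^ c) ^ 1 := by ring
        _ ≤ (2 ^ c) ^ t := Nat.pow_le_pow_right (by positivity) ht1
    have ht2 : t + 1 ≤ 2 ^ t := Nat.lt_two_pow_self
    have h6 : (c * (t + 1) * k) ^ (t + 1) ≤ (4 * 2 ^ c * c * (t + 1) * k) ^ t := by
      calc (c * (t + 1) * k) ^ (t + 1) = (c * (t + 1) * k) ^ t * (c * (t + 1) * k) := pow_succ _ _
        _ ≤ (c * (t + 1) * k) ^ t * ((2 ^ c) ^ t * 2 ^ t * 2 ^ t) := by gcongr
        _ = (c * (t + 1) * k * (2 ^ c * 2 * 2)) ^ t := by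
            rw [mul_pow _ (2 ^ c * 2 * 2), mul_pow (2 ^ c * 2), mul_pow (2 ^ c)]
        _ = _ := by congr 1; ring
    have h7 : M - t * k ≤ 4 * 2 ^ c * c * (t + 1) * k :=
      (Nat.pow_le_pow_iff_left (by omega)).1 (h5.trans h6)
    calc M ≤ t * k + 4 * 2 ^ c * c * (t + 1) * k := by omega
      _ ≤ t * k + 4 * 2 ^ c * c * (2 * t) * k := by
          gcongr
          omega
      _ = _ := by ring

end Pool.Agent.W672.PL.Pin
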